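import Pool.Agent.P.MP_a2beea_nt.FC.MainB

/-! The function field analogue of Colmez's formula, for `t`-motives over `F_q(θ)` with complex
multiplication by `O_E`, every CM type. -/

open Polynomial Pool.Agent.FFC
open scoped TensorProduct

namespace Pool.Agent.Results.MP_a2beea_nt.FunctionField

theorem result (k : Type) [Field k] [Fintype k]
    (E : Type) [Field E] [Algebra k E] [Algebra k[X] E] [Algebra (RatFunc k) E]
    [IsScalarTower k k[X] E] [IsScalarTower k[X] (RatFunc k) E]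
    [FiniteDimensional (RatFunc k) E] [Algebra.IsSeparable (RatFunc k) E]
    (K : Type) [Field K] [Algebra k K] [Algebra k[X] K] [Algebra (RatFunc k) K]
    [IsScalarTower k k[X] K] [IsScalarTower k[X] (RatFunc k) K]
    [FiniteDimensional (RatFunc k) K] [IsGalois (RatFunc k) K]
    (OE : Type) [CommRing OE] [Algebra k OE] [Algebra k[X] OE] [Algebra OE E]
    [IsScalarTower k k[X] OE] [IsScalarTower k[X] OE E] [IsIntegralClosure OE k[X] E]
    (OK : Type) [CommRing OK] [Algebra k OK] [Algebra k[X] OK] [Algebra OK K]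
    [IsScalarTower k k[X] OK] [IsScalarTower k[X] OK K] [IsIntegralClosure OK k[X] K]
    (C : Type) [NormedField C] [IsUltrametricDist C] [CompleteSpace C] [IsAlgClosed C]
    [Algebra K C] (hθ : ‖algebraMap K C (algebraMap k[X] K X)‖ = Fintype.card k)
    (hdense : Dense {x : C | IsAlgebraic K x})
    (F : IntermediateField (RatFunc k) E)
    (hF : ∀ φ φ' : E →ₐ[RatFunc k] K, φ' ∈ cls F φ →
      ∀ x, ‖algebraMap K C (φ' x)‖ = ‖algebraMap K C (φ x)‖)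
    (d : (E →ₐ[RatFunc k] K) → ℕ) (m : ℕ) (hd : ∀ φ, ∑ᶠ φ' ∈ cls F φ, d φ' = m)
    (M : Type) [AddCommGroup M] [Module (OK ⊗[k] OE) M] (τ : M →+ M)
    (hM : IsCMMotive OE OK d τ) (ψ : E →ₐ[RatFunc k] K) (ω : (E →ₐ[RatFunc k] K) → M)
    (hω : ∀ φ ∈ cls F ψ, ω φ ∈ eigen OE OK τ φ ∧ ω φ ∉ dRKer k OE OK τ)
    (u : (K ≃ₐ[RatFunc k] K) → M →+ PowerSeries C)
    (hu : ∀ η, IsCycle (k := k) (OE := OE) (OK := OK) τ η (u η) ∧ u η ≠ 0)
    (P : FinPl k → Ideal OK) (hP : ∀ π, (P π).IsMaximal ∧ algebraMap k[X] OK π.1 ∈ P π) :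
    ∃ p : (K ≃ₐ[RatFunc k] K) → (E →ₐ[RatFunc k] K) → C,
      (∀ η, ∀ φ ∈ cls F ψ,
        HasSum (fun n => PowerSeries.coeff n (u η (ω φ)) *
          algebraMap K C (algebraMap k[X] K X) ^ n) (p η φ) ∧ p η φ ≠ 0) ∧
      (∀ φ ∈ cls F ψ, dRIndex OE OK τ φ (ω φ) ≠ 0) ∧
      ∃ Z : ℂ → ℂ, MeromorphicOn Z Set.univ ∧ AnalyticAt ℂ Z 0 ∧
        (∀ s : ℂ, 1 < s.re → HasSum (zTerm P (fun g => a0 d ψ g⁻¹) s) (Z s)) ∧
        Z 0 = height F m ψ p (fun φ => dRIndex OE OK τ φ (ω φ)) :=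
  mainB hθ hdense F hF d m hd τ hM ψ ω hω u hu P hP

end Pool.Agent.Results.MP_a2beea_nt.FunctionField
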