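import Pool.Agent.P.MP_a2beea_nt.Field

/-!
Which of Colmez's class functions are rational linear combinations of the averaged ones, the
abelian ones and the constant.
-/

namespace Pool.Agent.Results.MP_a2beea_nt.KnownSpan

open NumberField Pool.Agent.P.MP_a2beea_nt.F

theorem result (K : Type) [Field K] [NumberField K] [IsCMField K] [IsGalois ℚ K]
    (E : IntermediateField ℚ K) (ψ : E →ₐ[ℚ] K) (Φ : Set (E →ₐ[ℚ] K)) (hΦ : IsCMType E Φ) :
    a0 E ψ Φ ∈ Submodule.span ℚ (known K) ↔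
      ∀ g h : K ≃ₐ[ℚ] K, Subgroup.zpowers g = Subgroup.zpowers h →
        a0 E ψ Φ g - abPart (a0 E ψ Φ) g = a0 E ψ Φ h - abPart (a0 E ψ Φ) h :=
  main E ψ Φ hΦ

end Pool.Agent.Results.MP_a2beea_nt.KnownSpan
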